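import Pool.Agent.T9h11.NF.Spec2
import Pool.Agent.T9h57.NF.Ex
import Pool.Agent.T9h57.QD.Basic

/-!
# Number fields: norms, embeddings, Lipschitz functions
-/

set_option autoImplicit false
set_option linter.unusedSectionVars false

namespace Pool.Agent.T9h22.NF

open Finset NumberField Pool.Agent.T9h57.QD Pool.Agent.T9h57.NF Pool.Agent.T9h11.NF

variable {K : Type} [Field K] [NumberField K]

theorem nrm_mul (z w : Sp K) : nrm (z * w) = nrm z * nrm w := by
  unfold nrm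
  rw [← Finset.prod_mul_distrib]
  refine Finset.prod_congr rfl fun v _ => ?_
  rw [Pi.mul_apply, norm_mul, mul_pow]

theorem nrm_nonneg (z : Sp K) : 0 ≤ nrm z := Finset.prod_nonneg fun v _ => by positivity

theorem nrm_pos {z : Sp K} (h : ∀ v, z v ≠ 0) : 0 < nrm z :=
  Finset.prod_pos fun v _ => pow_pos (norm_pos_iff.2 (h v)) _

theorem nrm_inv (z : Sp K) : nrm z⁻¹ = (nrm z)⁻¹ := by
  unfold nrm
  rw [← Finset.prod_inv_distrib]
  refine Finset.prod_congr rfl fun v _ => ?_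
  rw [Pi.inv_apply, norm_inv, inv_pow]

theorem nrm_const (c : ℝ) (hc : 0 ≤ c) :
    nrm (fun _ => (c : ℂ) : Sp K) = c ^ Module.finrank ℚ K := by
  unfold nrm
  simp only [Complex.norm_real, Real.norm_eq_abs, abs_of_nonneg hc]
  rw [Finset.prod_pow_eq_pow_sum, InfinitePlace.sum_mult_eq]

theorem smul_eq (c : ℝ) (z : Sp K) : c • z = (fun _ => (c : ℂ) : Sp K) * z := by
  funext v
  rw [Pi.smul_apply, Pi.mul_apply, Complex.real_smul]

theorem nrm_smul (c : ℝ) (hc : 0 ≤ c) (z : Sp K) :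
    nrm (c • z) = c ^ Module.finrank ℚ K * nrm z := by
  rw [smul_eq, nrm_mul, nrm_const c hc]

theorem RF.mul {z w : Sp K} (hz : RF z) (hw : RF w) : RF (z * w) := by
  refine ⟨fun v => mul_ne_zero (hz.1 v) (hw.1 v), fun v hv => ?_⟩
  rw [Pi.mul_apply, Complex.mul_im, hz.2 v hv, hw.2 v hv]
  ring

theorem RF.inv {z : Sp K} (hz : RF z) : RF z⁻¹ := by
  refine ⟨fun v => inv_ne_zero (hz.1 v), fun v hv => ?_⟩
  rw [Pi.inv_apply, Complex.inv_im, hz.2 v hv]
  simp

theorem RF_const {c : ℝ} (hc : c ≠ 0) : RF (fun _ => (c : ℂ) : Sp K) :=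
  ⟨fun _ => Complex.ofReal_ne_zero.2 hc, fun _ _ => Complex.ofReal_im c⟩

theorem E_apply (x : K) (v : InfinitePlace K) : E x v = v.embedding x := rfl

theorem RF_E {x : K} (hx : x ≠ 0) : RF (E x : Sp K) := by
  refine ⟨fun v => ?_, fun v hv => ?_⟩
  · rw [E_apply]
    exact (map_ne_zero _).2 hx
  · rw [E_apply]
    have h := InfinitePlace.isReal_iff.1 hv
    rw [← Complex.conj_eq_iff_im]
    exact RingHom.congr_fun h x

theorem mul_inv_cancel' {z : Sp K} (hz : ∀ v, z v ≠ 0) (w : Sp K) : z⁻¹ * (z * w) = w := by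
  funext v
  simp only [Pi.mul_apply, Pi.inv_apply]
  rw [inv_mul_cancel_left₀ (hz v)]

theorem mul_inv_cancel'' {z : Sp K} (hz : ∀ v, z v ≠ 0) (w : Sp K) : z * (z⁻¹ * w) = w := by
  funext v
  simp only [Pi.mul_apply, Pi.inv_apply]
  rw [mul_inv_cancel_left₀ (hz v)]

/-! ## Lipschitz functions -/

theorem LipF.mono {L B L' B' : ℝ} {F : Sp K → ℝ} (h : LipF L B F) (hL : L ≤ L') (hB : B ≤ B') :
    LipF L' B' F :=
  ⟨fun z z' => (h.1 z z').trans (mul_le_mul_of_nonneg_right hL (norm_nonneg _)),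
    fun z hz => (h.2 z hz).trans hB⟩

theorem LipF.add {L L' B : ℝ} {F G : Sp K → ℝ} (h : LipF L B F) (h' : LipF L' B G) :
    LipF (L + L') B (fun z => F z + G z) := by
  refine ⟨fun z z' => ?_, fun z hz => ?_⟩
  · have h1 := h.1 z z'
    have h2 := h'.1 z z'
    have h3 : F z + G z - (F z' + G z') = (F z - F z') + (G z - G z') := by ring
    rw [h3, add_mul]
    exact (abs_add_le _ _).trans (add_le_add h1 h2)
  · by_cases h0 : F z = 0
    · refine h'.2 z fun h1 => hz ?_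
      change F z + G z = 0
      rw [h0, h1, add_zero]
    · exact h.2 z h0

theorem LipF.smul {L B D : ℝ} {F : Sp K → ℝ} (h : LipF L B F) (hD : 0 < D) :
    LipF (L / D) (B * D) (fun z => F (D⁻¹ • z)) := by
  refine ⟨fun z z' => ?_, fun z hz => ?_⟩
  · refine (h.1 _ _).trans (le_of_eq ?_)
    rw [← smul_sub, norm_smul, Real.norm_eq_abs, abs_of_pos (inv_pos.2 hD)]
    ring
  · have h1 := h.2 _ hz
    rw [norm_smul, Real.norm_eq_abs, abs_of_pos (inv_pos.2 hD)] at h1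
    rw [← div_le_iff₀ hD, div_eq_inv_mul]
    exact h1

theorem LipF.zero (B : ℝ) : LipF (K := K) 0 B (fun _ => 0) :=
  ⟨fun z z' => by simp, fun z hz => absurd rfl hz⟩

/-- finitely many integers of bounded size -/
theorem exists_ball (hLat : LatK K) (R : ℝ) (hR : 0 ≤ R) :
    ∃ S : Finset (𝓞 K), ∀ x : 𝓞 K, x ∈ S ↔ ‖E (x : K)‖ ≤ R := by
  obtain ⟨C, hC, h1, -⟩ := hLat
  have hfin : {x : 𝓞 K | ‖E (x : K)‖ ≤ R}.Finite := by
    by_contra hinf
    obtain ⟨m, hm⟩ := exists_nat_gt (C * (R + 1) ^ Module.finrank ℚ K)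
    obtain ⟨T, hT, hTc⟩ := Set.Infinite.exists_subset_card_eq hinf m
    have h2 := h1 R T hR fun x hx => hT hx
    rw [hTc] at h2
    linarith
  exact ⟨hfin.toFinset, fun x => by rw [Set.Finite.mem_toFinset]; rfl⟩

end Pool.Agent.T9h22.NF
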