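import Pool.Agent.T9h22.NF.Cnt

/-!
# Number fields: equidistribution of `λ` + (free slots)
-/

set_option autoImplicit false
set_option linter.unusedSectionVars false

namespace Pool.Agent.T9h22.NF

open Finset NumberField Pool.Agent.T9h57.QD Pool.Agent.T9h57.NF Pool.Agent.T9h11.NF

variable {K : Type} [Field K] [NumberField K]

/-- linearity for finite sums -/
theorem I_sum {I : (Sp K → ℝ) → ℝ} {C : ℝ} (hI : Riem K I C) {ι : Type} (S : Finset ι)
    (H : ι → Sp K → ℝ) (L B : ℝ) (hL : 0 ≤ L) (hH : ∀ k ∈ S, LipF L B (H k)) :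
    LipF (S.card * L) B (fun z => ∑ k ∈ S, H k z) ∧
      I (fun z => ∑ k ∈ S, H k z) = ∑ k ∈ S, I (H k) := by
  classical
  induction S using Finset.induction_on with
  | empty =>
    refine ⟨?_, ?_⟩
    · simp only [Finset.sum_empty, Finset.card_empty, Nat.cast_zero, zero_mul]
      exact LipF.zero B
    · simp only [Finset.sum_empty]
      have := hI.lin (fun _ => 0) (fun _ => 0) 0 B (LipF.zero B) (LipF.zero B) 0 0
      simpa using this
  | insert a S ha ih =>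
    obtain ⟨ih1, ih2⟩ := ih fun k hk => hH k (Finset.mem_insert_of_mem hk)
    have h1 := hH a (Finset.mem_insert_self a S)
    simp only [Finset.sum_insert ha]
    refine ⟨?_, ?_⟩
    · have h2 := LipF.add h1 ih1
      refine LipF.mono h2 (le_of_eq ?_) le_rfl
      rw [Finset.card_insert_of_notMem ha]
      push_cast
      ring
    · have h3 : 0 ≤ (S.card : ℝ) * L := by positivity
      have h2 := hI.lin (H a) (fun z => ∑ k ∈ S, H k z) (L + S.card * L) B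
        (LipF.mono h1 (by linarith) le_rfl) (LipF.mono ih1 (by linarith) le_rfl) 1 1
      simp only [one_mul] at h2
      rw [h2, ih2]

theorem el_neg (a : Absb K) (k : InfinitePlace K → ℤ) : a.el (-k) = (a.el k)⁻¹ := by
  unfold Absb.el
  rw [← Finset.prod_inv_distrib]
  refine Finset.prod_congr rfl fun i _ => ?_
  rw [Pi.neg_apply, zpow_neg]

theorem el_ne (a : Absb K) (k : InfinitePlace K → ℤ) : a.el k ≠ 0 := by
  unfold Absb.el
  rw [Finset.prod_ne_zero_iff]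
  intro i _
  refine zpow_ne_zero _ ?_
  intro h
  exact a.ne i (by exact_mod_cast h)

theorem E_inv (x : K) : (E x⁻¹ : Sp K) = (E x)⁻¹ := by
  funext v
  rw [Pi.inv_apply, E_apply, E_apply, map_inv₀]

/-- the sum over all `λ` of the tile function -/
theorem tile_sum {a : Absb K} {ρ : Sp K → ℝ} (hT : Tile a ρ) (y : Sp K) (hy : ∀ v, y v ≠ 0)
    (S : Finset (InfinitePlace K → ℤ))
    (hS : ∀ k, ρ ((E (a.el k) : Sp K)⁻¹ * y) ≠ 0 → k ∈ S) :
    ∑ k ∈ S, ρ ((E (a.el k) : Sp K)⁻¹ * y) = 1 := by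
  classical
  obtain ⟨S', hS', h1⟩ := hT.2 y hy
  have e1 : ∑ k ∈ S, ρ ((E (a.el k) : Sp K)⁻¹ * y) = ∑ᶠ k, ρ ((E (a.el k) : Sp K)⁻¹ * y) := by
    symm
    exact finsum_eq_sum_of_support_subset _ fun k hk => hS k hk
  have e2 : ∑ k ∈ S', ρ (E (a.el k) * y) = ∑ᶠ k, ρ (E (a.el k) * y) := by
    symm
    exact finsum_eq_sum_of_support_subset _ fun k hk => hS' k hk
  rw [e1, ← h1, e2, ← finsum_comp_equiv (Equiv.neg (InfinitePlace K → ℤ))]
  refine finsum_congr fun k => ?_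
  rw [Equiv.neg_apply, el_neg, E_inv, inv_inv]

/-- one free slot -/
theorem one_slot (hLat : LatK K) (hAb : AbelK K) (hMean : MeanK K) {I : (Sp K → ℝ) → ℝ} {CR : ℝ}
    (hI : Riem K I CR) (hLip : LipX K) (hDiv : DivXK K) (hLog : LatLog K) (a : Absb K)
    (ρ Ψ : Sp K → ℝ) (hT : Tile a ρ) (hΨ : Adm Ψ) (M : Ideal (𝓞 K)) (hM : M ≠ ⊥) :
    ∃ C D₀ : ℝ, 1 ≤ C ∧ 1 ≤ D₀ ∧ ∀ D : ℝ, D₀ ≤ D → ∀ X : Finset (𝓞 K), IsSlot ρ M D X →
      ∑ x ∈ X, pr (wl ρ D) X x = 1 ∧ (∀ x ∈ X, 0 ≤ pr (wl ρ D) X x) ∧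
      ∀ w : Sp K, RF w → ∀ Λ : Finset (InfinitePlace K → ℤ),
      (∀ k, ∀ x ∈ X, Ψ (E (a.el k) * (w * E (x : K))) ≠ 0 → k ∈ Λ) →
      |∑ k ∈ Λ, ∑ x ∈ X, pr (wl ρ D) X x * Ψ (E (a.el k) * (w * E (x : K))) -
        I (fun z => Ψ z / nrm z) / I (fun z => ρ z / nrm z)| ≤ C / D := by
  classical
  obtain ⟨L, B, hL0, hB0, hLF, -, hLρ, -, -⟩ := hLip ρ Ψ hT.1 hΨ
  obtain ⟨L', B', hL0', hB0', hLF', -, hLΨ, -, -⟩ := hLip Ψ ρ hΨ hT.1
  obtain ⟨γ, hγ0, hγ1, hcount⟩ := count hLat hAb hMean hI M hM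
  obtain ⟨C₂, hC₂0, hcnt⟩ := hcount L B hL0 hB0
  obtain ⟨C₃, D₃, hC₃1, hD₃1, hdiv⟩ := hDiv ρ M hT.1 hM
  obtain ⟨⟨hρ01, -, ⟨c₁, c₂, hc₁, hρc⟩, ⟨zρ, hzρ, hzρ0⟩⟩, hTile⟩ := id hT
  obtain ⟨hΨ01, -, ⟨e₁, e₂, he₁, hΨc⟩, ⟨zΨ, hzΨ, hzΨ0⟩⟩ := id hΨ
  -- the supports are not empty
  obtain ⟨v₀⟩ : Nonempty (InfinitePlace K) := inferInstance
  have hc₂ : 0 < c₂ := lt_of_lt_of_le hc₁ ((hρc zρ hzρ0 v₀).1.trans (hρc zρ hzρ0 v₀).2)
  have he₂ : 0 < e₂ := lt_of_lt_of_le he₁ ((hΨc zΨ hzΨ0 v₀).1.trans (hΨc zΨ hzΨ0 v₀).2)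
  obtain ⟨B₀, hB₀⟩ := hLog a (e₁ / c₂) (e₂ / c₁) (div_pos he₁ hc₂)
  set F₀ : Sp K → ℝ := fun z => ρ z / nrm z with hF₀
  have hF₀0 : ∀ z, 0 ≤ F₀ z := fun z => div_nonneg (hρ01 z).1 (nrm_nonneg z)
  have hI₀ : 0 < I F₀ := hI.pos F₀ L B hLρ hF₀0
    ⟨zρ, hzρ, div_ne_zero hzρ0 (nrm_pos hzρ.1).ne'⟩
  refine ⟨B₀ * (C₂ * 2 * C₃) + 1, D₃, ?_, hD₃1, ?_⟩
  · have : 0 ≤ (B₀ : ℝ) * (C₂ * 2 * C₃) := by positivity
    linarith
  intro D hD X hX
  obtain ⟨hXne, hN1, hN2, -, -⟩ := hdiv D hD X hX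
  have hD1 : 1 ≤ D := hD₃1.trans hD
  have hD0 : 0 < D := by linarith
  set d := Module.finrank ℚ K with hd
  set N : ℝ := ∑ x ∈ X, wl ρ D x with hN
  have hC₃0 : 0 < C₃ := by linarith
  have hN0 : 0 < N := lt_of_lt_of_le (by positivity) hN1
  have hwl0 : ∀ x : 𝓞 K, 0 ≤ wl ρ D x := fun x => div_nonneg (hρ01 _).1 (nrm_nonneg _)
  refine ⟨?_, fun x _ => div_nonneg (hwl0 x) hN0.le, ?_⟩
  · unfold pr
    rw [← Finset.sum_div]
    exact div_self hN0.ne'
  intro w hw Λ hΛ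
  -- the functions `F k`
  set W : (InfinitePlace K → ℤ) → Sp K := fun k => D • ((E (a.el k) : Sp K) * w) with hW
  have hWRF : ∀ k, RF (W k) := by
    intro k
    simp only [hW]
    rw [smul_eq]
    exact RF.mul (RF_const hD0.ne') (RF.mul (RF_E (el_ne a k)) hw)
  set F : (InfinitePlace K → ℤ) → Sp K → ℝ := fun k z => ρ z / nrm z * Ψ (W k * z) with hF
  have hFL : ∀ k, LipF L B (F k) := fun k => hLF (W k)
  have hF0 : ∀ k z, 0 ≤ F k z := fun k z => mul_nonneg (hF₀0 z) (hΨ01 _).1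
  have hFle : ∀ k z, F k z ≤ F₀ z := fun k z => mul_le_of_le_one_right (hF₀0 z) (hΨ01 _).2
  have hI0 : ∀ k, 0 ≤ I (F k) := fun k => hI.nonneg _ L B (hFL k) (hF0 k)
  have hIle : ∀ k, I (F k) ≤ I F₀ := by
    intro k
    have h1 := hI.lin F₀ (F k) L B hLρ (hFL k) 1 (-1)
    have h2 : LipF (L + L) B (fun z => 1 * F₀ z + -1 * F k z) := by
      have h3 : LipF L B (fun z => -1 * F k z) := by
        refine ⟨fun z z' => ?_, fun z hz => ?_⟩
        · have := (hFL k).1 z z'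
          rw [← mul_sub, abs_mul]
          simpa using this
        · refine (hFL k).2 z fun h0 => hz ?_
          change -1 * F k z = 0
          rw [h0, mul_zero]
      have h4 : LipF L B (fun z => 1 * F₀ z) := by
        simpa only [one_mul] using hLρ
      exact LipF.add h4 h3
    have h5 := hI.nonneg _ _ _ h2 (fun z => by have := hFle k z; linarith)
    rw [h1] at h5
    linarith
  have hpoint : ∀ (k : InfinitePlace K → ℤ) (x : 𝓞 K),
      wl ρ D x * Ψ (E (a.el k) * (w * E (x : K))) = (D⁻¹) ^ d * F k (D⁻¹ • E (x : K)) := by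
    intro k x
    simp only [hF, hW, wl]
    rw [nrm_smul _ (inv_pos.2 hD0).le]
    have h1 : D • ((E (a.el k) : Sp K) * w) * D⁻¹ • E (x : K) = E (a.el k) * (w * E (x : K)) := by
      rw [smul_mul_smul_comm, mul_inv_cancel₀ hD0.ne', one_smul, mul_assoc]
    rw [h1, ← hd]
    have h2 : (D⁻¹) ^ d ≠ 0 := pow_ne_zero _ (inv_ne_zero hD0.ne')
    have h3 : (D⁻¹) ^ d * (ρ (D⁻¹ • E (x : K)) / ((D⁻¹) ^ d * nrm (E (x : K)))) =
        ρ (D⁻¹ • E (x : K)) / nrm (E (x : K)) := by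
      rw [mul_div_assoc', mul_div_mul_left _ _ h2]
    rw [← h3, mul_assoc]
  have hpoint0 : ∀ x : 𝓞 K, wl ρ D x = (D⁻¹) ^ d * F₀ (D⁻¹ • E (x : K)) := by
    intro x
    simp only [hF₀, wl]
    rw [nrm_smul _ (inv_pos.2 hD0).le, ← hd]
    have h2 : (D⁻¹) ^ d ≠ 0 := pow_ne_zero _ (inv_ne_zero hD0.ne')
    rw [mul_div_assoc', mul_div_mul_left _ _ h2]
  have hNest : |N - γ * I F₀| ≤ C₂ / D := by
    have h1 := hcnt D hD1 ρ X hX F₀ hLρ (fun z hz h0 => hz (by simp only [hF₀]; rw [h0, zero_div]))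
    rw [Finset.mul_sum] at h1
    rw [hN, Finset.sum_congr rfl fun x _ => hpoint0 x]
    exact h1
  set P : (InfinitePlace K → ℤ) → ℝ := fun k =>
    ∑ x ∈ X, wl ρ D x * Ψ (E (a.el k) * (w * E (x : K))) with hP
  have hPest : ∀ k, |P k - γ * I (F k)| ≤ C₂ / D := by
    intro k
    have h1 := hcnt D hD1 ρ X hX (F k) (hFL k)
      (fun z hz h0 => hz (by simp only [hF]; rw [h0, zero_div, zero_mul]))
    rw [Finset.mul_sum] at h1
    simp only [hP]
    rw [Finset.sum_congr rfl fun x _ => hpoint k x]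
    exact h1
  have hratio : ∀ k, |P k / N - I (F k) / I F₀| ≤ C₂ * 2 * C₃ / D := by
    intro k
    have h1 : P k / N - I (F k) / I F₀ =
        ((P k - γ * I (F k)) * I F₀ - I (F k) * (N - γ * I F₀)) / (N * I F₀) := by
      field_simp
      ring
    rw [h1, abs_div, abs_of_pos (mul_pos hN0 hI₀), div_le_iff₀ (mul_pos hN0 hI₀)]
    calc |(P k - γ * I (F k)) * I F₀ - I (F k) * (N - γ * I F₀)|
        ≤ |(P k - γ * I (F k)) * I F₀| + |I (F k) * (N - γ * I F₀)| := abs_sub _ _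
      _ ≤ C₂ / D * I F₀ + I F₀ * (C₂ / D) := by
          rw [abs_mul, abs_mul, abs_of_pos hI₀, abs_of_nonneg (hI0 k)]
          refine add_le_add (mul_le_mul_of_nonneg_right (hPest k) hI₀.le) ?_
          exact mul_le_mul (hIle k) hNest (abs_nonneg _) hI₀.le
      _ = C₂ * 2 / D * I F₀ * 1 := by ring
      _ ≤ C₂ * 2 / D * I F₀ * (C₃ * N) := by
          refine mul_le_mul_of_nonneg_left ?_ (by positivity)
          rw [div_le_iff₀ hC₃0] at hN1
          linarith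
      _ = _ := by ring
  -- the finite set of `k`
  have hDw : ∀ v, (D • w) v ≠ 0 := by
    intro v
    rw [Pi.smul_apply]
    exact smul_ne_zero hD0.ne' (hw.1 v)
  obtain ⟨hfin, hcardB⟩ := hB₀ (D • w) hDw
  set Λ' : Finset (InfinitePlace K → ℤ) := hfin.toFinset with hΛ'
  have hmem : ∀ k y, ρ y ≠ 0 → Ψ (W k * y) ≠ 0 → k ∈ Λ' := by
    intro k y h1 h2
    rw [hΛ', Set.Finite.mem_toFinset]
    intro v
    have h3 := hρc y h1 v
    have h4 := hΨc _ h2 v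
    have h5 : (E (a.el k) * (D • w) : Sp K) = W k := by
      simp only [hW]
      rw [mul_smul_comm]
    rw [h5]
    rw [Pi.mul_apply, norm_mul] at h4
    have h6 : 0 < ‖y v‖ := lt_of_lt_of_le hc₁ h3.1
    have h7 : 0 ≤ ‖W k v‖ := norm_nonneg _
    constructor
    · rw [div_le_iff₀ hc₂]
      exact h4.1.trans (mul_le_mul_of_nonneg_left h3.2 h7)
    · rw [le_div_iff₀ hc₁]
      exact (mul_le_mul_of_nonneg_left h3.1 h7).trans h4.2
  have hcard : (Λ'.card : ℝ) ≤ B₀ := by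
    exact_mod_cast hcardB Λ' fun k hk => by
      rw [hΛ', Set.Finite.mem_toFinset] at hk
      exact hk
  -- from `Λ` to `Λ'`
  have hsumP : ∑ k ∈ Λ, ∑ x ∈ X, pr (wl ρ D) X x * Ψ (E (a.el k) * (w * E (x : K))) =
      ∑ k ∈ Λ', P k / N := by
    have h0 : ∀ k, ∑ x ∈ X, pr (wl ρ D) X x * Ψ (E (a.el k) * (w * E (x : K))) = P k / N := by
      intro k
      simp only [hP, pr]
      rw [Finset.sum_div]
      refine Finset.sum_congr rfl fun x _ => ?_
      rw [← hN]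
      ring
    rw [Finset.sum_congr rfl fun k _ => h0 k]
    have hz1 : ∀ k, k ∉ Λ' → P k / N = 0 := by
      intro k hk
      have : P k = 0 := by
        simp only [hP]
        refine Finset.sum_eq_zero fun x _ => ?_
        rw [hpoint]
        have h1 : F k (D⁻¹ • E (x : K)) = 0 := by
          by_contra h2
          simp only [hF] at h2
          have h3 : ρ (D⁻¹ • E (x : K)) ≠ 0 := by
            intro h4; apply h2; rw [h4, zero_div, zero_mul]
          have h4 : Ψ (W k * D⁻¹ • E (x : K)) ≠ 0 := by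
            intro h5; apply h2; rw [h5, mul_zero]
          exact hk (hmem k _ h3 h4)
        rw [h1, mul_zero]
      rw [this, zero_div]
    have hz2 : ∀ k, k ∉ Λ → P k / N = 0 := by
      intro k hk
      have : P k = 0 := by
        simp only [hP]
        refine Finset.sum_eq_zero fun x hx => ?_
        have h1 : Ψ (E (a.el k) * (w * E (x : K))) = 0 := by
          by_contra h2
          exact hk (hΛ k x hx h2)
        rw [h1, mul_zero]
      rw [this, zero_div]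
    calc ∑ k ∈ Λ, P k / N = ∑ k ∈ Λ ∪ Λ', P k / N :=
          Finset.sum_subset Finset.subset_union_left fun k _ hk => hz2 k hk
      _ = ∑ k ∈ Λ', P k / N :=
          (Finset.sum_subset Finset.subset_union_right fun k _ hk => hz1 k hk).symm
  -- the integrals
  set H : (InfinitePlace K → ℤ) → Sp K → ℝ := fun k y => Ψ y / nrm y * ρ ((W k)⁻¹ * y) with hH
  have hIH : ∀ k, I (H k) = I (F k) := by
    intro k
    have h1 := hI.scale (F k) L B (hFL k) (W k)⁻¹ (RF.inv (hWRF k))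
    rw [nrm_inv, div_inv_eq_mul] at h1
    have hWn : 0 < nrm (W k) := nrm_pos (hWRF k).1
    have h2 : ∀ y, F k ((W k)⁻¹ * y) = nrm (W k) * H k y := by
      intro y
      simp only [hF, hH]
      rw [mul_inv_cancel'' (hWRF k).1, nrm_mul, nrm_inv]
      by_cases hy : nrm y = 0
      · rw [hy]; simp
      · field_simp
    have h3 : (fun z => F k ((W k)⁻¹ * z)) = fun z => nrm (W k) * H k z + 0 * H k z := by
      funext z
      rw [h2, zero_mul, add_zero]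
    rw [h3, hI.lin (H k) (H k) L' B' (hLF' _) (hLF' _)] at h1
    have h4 : nrm (W k) * I (H k) = nrm (W k) * I (F k) := by linarith
    exact mul_left_cancel₀ hWn.ne' h4
  have hsumH : (fun y => ∑ k ∈ Λ', H k y) = fun z => Ψ z / nrm z := by
    funext y
    simp only [hH]
    rw [← Finset.mul_sum]
    by_cases hy : Ψ y = 0
    · rw [hy]; simp
    · have hyv : ∀ v, y v ≠ 0 := by
        intro v h0
        have := (hΨc y hy v).1
        rw [h0, norm_zero] at this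
        linarith
      have h1 : ∀ k, (W k)⁻¹ * y = (E (a.el k) : Sp K)⁻¹ * ((D • w)⁻¹ * y) := by
        intro k
        simp only [hW]
        rw [← mul_smul_comm, mul_inv, mul_assoc]
      have h2 := tile_sum hT ((D • w)⁻¹ * y) (fun v => mul_ne_zero (inv_ne_zero (hDw v)) (hyv v))
        Λ' ?_
      · rw [Finset.sum_congr rfl fun k _ => by rw [h1 k], h2, mul_one]
      · intro k hk
        rw [← h1] at hk
        refine hmem k ((W k)⁻¹ * y) hk ?_
        rw [mul_inv_cancel'' (hWRF k).1]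
        exact hy
  have hIsum : I (fun z => Ψ z / nrm z) = ∑ k ∈ Λ', I (F k) := by
    rw [← hsumH, (I_sum hI Λ' H L' B' hL0' fun k _ => hLF' _).2]
    exact Finset.sum_congr rfl fun k _ => hIH k
  rw [hsumP, hIsum, Finset.sum_div, ← Finset.sum_sub_distrib]
  refine (Finset.abs_sum_le_sum_abs _ _).trans ?_
  calc ∑ k ∈ Λ', |P k / N - I (F k) / I F₀| ≤ ∑ _k ∈ Λ', C₂ * 2 * C₃ / D :=
        Finset.sum_le_sum fun k _ => hratio k
    _ = Λ'.card * (C₂ * 2 * C₃ / D) := by rw [Finset.sum_const, nsmul_eq_mul]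
    _ ≤ B₀ * (C₂ * 2 * C₃ / D) := mul_le_mul_of_nonneg_right hcard (by positivity)
    _ = B₀ * (C₂ * 2 * C₃) / D := by ring
    _ ≤ _ := by
        refine div_le_div_of_nonneg_right ?_ hD0.le
        linarith

theorem circleOfK (K : Type) [Field K] [NumberField K] : CircleOfK K := by
  intro hLat hAb hMean hRiem hLip hDiv hLog a n ρ Ψ hn hT hΨ
  classical
  obtain ⟨I, CR, h1, h2, h3, h4, h5, h6⟩ := hRiem
  have hI : Riem K I CR := ⟨h1, h2, h3, h4, h5, h6⟩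
  obtain ⟨⟨hρ01, -, ⟨c₁, c₂, hc₁, hρc⟩, ⟨zρ, hzρ, hzρ0⟩⟩, hTile⟩ := id hT
  obtain ⟨hΨ01, -, ⟨e₁, e₂, he₁, hΨc⟩, ⟨zΨ, hzΨ, hzΨ0⟩⟩ := id hΨ
  obtain ⟨L, B, hL0, hB0, -, -, hLρ, -, hLΨ⟩ := hLip ρ Ψ hT.1 hΨ
  have hI₀ : 0 < I (fun z => ρ z / nrm z) :=
    hI.pos _ L B hLρ (fun z => div_nonneg (hρ01 z).1 (nrm_nonneg z))
      ⟨zρ, hzρ, div_ne_zero hzρ0 (nrm_pos hzρ.1).ne'⟩
  have hI₁ : 0 < I (fun z => Ψ z / nrm z) :=
    hI.pos _ L B hLΨ (fun z => div_nonneg (hΨ01 z).1 (nrm_nonneg z))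
      ⟨zΨ, hzΨ, div_ne_zero hzΨ0 (nrm_pos hzΨ.1).ne'⟩
  refine ⟨I (fun z => Ψ z / nrm z) / I (fun z => ρ z / nrm z), div_pos hI₁ hI₀,
    fun M hM => ?_⟩
  obtain ⟨C, D₀, hC, hD₀, hone⟩ := one_slot hLat hAb hMean hI hLip hDiv hLog a ρ Ψ hT hΨ M hM
  refine ⟨C, D₀, hC, hD₀, fun D hD X hX z hz Λ hΛ => ?_⟩
  obtain ⟨hp1, hp0, hmain⟩ := hone D hD X hX
  have hD0 : 0 < D := by linarith
  obtain ⟨m, rfl⟩ : ∃ m, n = m + 1 := ⟨n - 1, by omega⟩
  set C₁ := I (fun z => Ψ z / nrm z) / I (fun z => ρ z / nrm z) with hC₁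
  set p := pr (wl ρ D) X with hp
  have e1 : ∑ k ∈ Λ, exk (m + 1) X p (fun v => Ψ (E (a.el k) * (z * E ((∏ i, v i : 𝓞 K) : K)))) =
      exw m X p (fun v => ∑ k ∈ Λ, ∑ x ∈ X, p x *
        Ψ (E (a.el k) * ((z * E ((∏ i, v i : 𝓞 K) : K)) * E (x : K)))) := by
    rw [exw_sum]
    refine Finset.sum_congr rfl fun k _ => ?_
    have h7 : exk (m + 1) X p (fun v => Ψ (E (a.el k) * (z * E ((∏ i, v i : 𝓞 K) : K)))) =
        exw (m + 1) X p (fun v => Ψ (E (a.el k) * (z * E ((∏ i, v i : 𝓞 K) : K)))) := rfl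
    rw [h7, exw_succ, exw_sum]
    refine Finset.sum_congr rfl fun x _ => ?_
    rw [exw_mul_left]
    congr 1
    refine exw_congr fun v _ => ?_
    rw [Fin.prod_univ_succ]
    simp only [Fin.cons_zero, Fin.cons_succ]
    congr 2
    have hc : ((x * ∏ i, v i : 𝓞 K) : K) = (x : K) * ((∏ i, v i : 𝓞 K) : K) := by
      push_cast
      rfl
    rw [hc, map_mul]
    ring
  have e2 : exw m X p (fun v => ∑ k ∈ Λ, ∑ x ∈ X, p x *
        Ψ (E (a.el k) * ((z * E ((∏ i, v i : 𝓞 K) : K)) * E (x : K)))) - C₁ =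
      exw m X p (fun v => ∑ k ∈ Λ, ∑ x ∈ X, p x *
        Ψ (E (a.el k) * ((z * E ((∏ i, v i : 𝓞 K) : K)) * E (x : K))) - C₁) := by
    rw [exw_sub, exw_const hp1]
  rw [e1, e2]
  refine (abs_exw_le hp0 _).trans (exw_le_of_le hp0 hp1.le (by positivity) fun v hv => ?_)
  have hv0 : ∀ i, (v i : K) ≠ 0 := by
    intro i h0
    have h8 := ((hX (v i)).1 (hv i)).2
    obtain ⟨v₀⟩ : Nonempty (InfinitePlace K) := inferInstance
    have h9 := (hρc _ h8 v₀).1
    rw [h0, map_zero, smul_zero, Pi.zero_apply, norm_zero] at h9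
    linarith
  have hprod : ((∏ i, v i : 𝓞 K) : K) ≠ 0 := by
    have h11 : (∏ i, v i : 𝓞 K) ≠ 0 :=
      Finset.prod_ne_zero_iff.2 fun i _ h => hv0 i (by rw [h]; simp)
    exact_mod_cast h11
  refine hmain (z * E ((∏ i, v i : 𝓞 K) : K)) (RF.mul hz (RF_E hprod)) Λ fun k x hx h10 => ?_
  refine hΛ k (Fin.cons x v) ?_ ?_
  · rw [Fintype.mem_piFinset]
    intro i
    refine Fin.cases ?_ (fun j => ?_) i
    · simpa using hx
    · simpa using hv j
  · rw [Fin.prod_univ_succ]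
    simp only [Fin.cons_zero, Fin.cons_succ]
    have hc : ((x * ∏ i, v i : 𝓞 K) : K) = (x : K) * ((∏ i, v i : 𝓞 K) : K) := by
      push_cast
      rfl
    rw [hc, map_mul]
    have h12 : E (a.el k) * (z * (E (x : K) * E ((∏ i, v i : 𝓞 K) : K))) =
        E (a.el k) * (z * E ((∏ i, v i : 𝓞 K) : K) * E (x : K)) := by ring
    rw [h12]
    exact h10

end Pool.Agent.T9h22.NF
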