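import Pool.Agent.T9h22.NF.Bas

/-!
# Number fields: the sum of a Lipschitz function over a slot
-/

set_option autoImplicit false
set_option linter.unusedSectionVars false

namespace Pool.Agent.T9h22.NF

open Finset NumberField Pool.Agent.T9h57.QD Pool.Agent.T9h57.NF Pool.Agent.T9h11.NF

variable {K : Type} [Field K] [NumberField K]

/-- The functional of `RiemK`. -/
structure Riem (K : Type) [Field K] [NumberField K] (I : (Sp K → ℝ) → ℝ) (C : ℝ) : Prop where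
  one : 1 ≤ C
  sum : ∀ (F : Sp K → ℝ) (L B : ℝ), 0 ≤ L → 0 ≤ B → LipF L B F → ∀ S : Finset (𝓞 K),
    (∀ x : 𝓞 K, F (E (x : K)) ≠ 0 → x ∈ S) →
    |∑ x ∈ S, F (E (x : K)) - I F| ≤ C * L * (B + 1) ^ Module.finrank ℚ K
  scale : ∀ (F : Sp K → ℝ) (L B : ℝ), LipF L B F → ∀ w : Sp K, RF w →
    I (fun z => F (w * z)) = I F / nrm w
  lin : ∀ (F G : Sp K → ℝ) (L B : ℝ), LipF L B F → LipF L B G → ∀ a b : ℝ,
    I (fun z => a * F z + b * G z) = a * I F + b * I G
  nonneg : ∀ (F : Sp K → ℝ) (L B : ℝ), LipF L B F → (∀ z, 0 ≤ F z) → 0 ≤ I F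
  pos : ∀ (F : Sp K → ℝ) (L B : ℝ), LipF L B F → (∀ z, 0 ≤ F z) →
    (∃ z, RF z ∧ F z ≠ 0) → 0 < I F

theorem nm_pos {M : Ideal (𝓞 K)} (hM : M ≠ ⊥) : 1 ≤ nm M := by
  unfold nm
  have : Ideal.absNorm M ≠ 0 := by
    rw [Ne, Ideal.absNorm_eq_zero_iff]; exact hM
  exact_mod_cast Nat.one_le_iff_ne_zero.2 this

theorem finrank_pos' : 0 < Module.finrank ℚ K := Module.finrank_pos

/-- The sum of a Lipschitz function over a slot. -/
theorem count (hLat : LatK K) (hAb : AbelK K) (hMean : MeanK K) {I : (Sp K → ℝ) → ℝ} {CR : ℝ}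
    (hI : Riem K I CR) (M : Ideal (𝓞 K)) (hM : M ≠ ⊥) :
    ∃ γ : ℝ, 0 < γ ∧ γ ≤ 1 ∧ ∀ L B : ℝ, 0 ≤ L → 0 ≤ B → ∃ C : ℝ, 0 ≤ C ∧
      ∀ D : ℝ, 1 ≤ D → ∀ (ρ : Sp K → ℝ) (X : Finset (𝓞 K)), IsSlot ρ M D X →
      ∀ F : Sp K → ℝ, LipF L B F → (∀ z, F z ≠ 0 → ρ z ≠ 0) →
      |(D⁻¹) ^ Module.finrank ℚ K * ∑ x ∈ X, F (D⁻¹ • E (x : K)) - γ * I F| ≤ C / D := by
  classical
  set d := Module.finrank ℚ K with hd
  have hd0 : 0 < d := finrank_pos'
  set T : Ideal (𝓞 K) := M * 1 * 1 with hT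
  have hTM : T = M := by rw [hT, mul_one, mul_one]
  have hT0 : T ≠ ⊥ := by rw [hTM]; exact hM
  have hTn : 1 ≤ nm T := nm_pos hT0
  have : Finite (𝓞 K ⧸ T) := Ideal.finiteQuotientOfFreeOfNeBot T hT0
  have : Fintype (𝓞 K ⧸ T) := Fintype.ofFinite _
  obtain ⟨out, hout⟩ : ∃ out : 𝓞 K ⧸ T → 𝓞 K, ∀ q, Ideal.Quotient.mk T (out q) = q :=
    ⟨Function.surjInv Ideal.Quotient.mk_surjective,
      Function.surjInv_eq Ideal.Quotient.mk_surjective⟩
  have hPD : PD (1 : Ideal (𝓞 K)) M := by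
    intro p hp hp0 h1
    exact absurd (isUnit_of_dvd_one h1) (fun h => hp.ne_top (Ideal.isUnit_iff.1 h))
  obtain ⟨-, -, -, hpos, hcop⟩ := hMean M 1 1 hM (by simp) (by simp) hPD isCoprime_one_left out hout
  set card : ℝ := (Fintype.card (𝓞 K ⧸ T) : ℝ) with hcard
  have hcard0 : 0 < card := by
    rw [hcard]; exact_mod_cast Fintype.card_pos
  set γ : ℝ := (∑ q, ind (cop (out q) M)) / card with hγ
  have hγ0 : 0 < γ := div_pos hpos hcard0
  have hγ1 : γ ≤ 1 := by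
    rw [hγ, div_le_one hcard0]
    calc ∑ q, ind (cop (out q) M) ≤ ∑ _q : 𝓞 K ⧸ T, (1 : ℝ) :=
          Finset.sum_le_sum fun q _ => ind_le_one _
      _ = card := by simp [hcard]
  set g : 𝓞 K ⧸ T → ℂ := fun q => ((ind (cop (out q) M) - γ : ℝ) : ℂ) with hg
  have hg0 : ∑ q, g q = 0 := by
    simp only [hg]
    rw [← Complex.ofReal_sum, Finset.sum_sub_distrib]
    simp only [Finset.sum_const, Finset.card_univ, nsmul_eq_mul]
    rw [← hcard, hγ, mul_div_cancel₀ _ hcard0.ne', sub_self, Complex.ofReal_zero]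
  have hgx : ∀ x : 𝓞 K, g (Ideal.Quotient.mk T x) = ((ind (cop x M) - γ : ℝ) : ℂ) := by
    intro x
    have h1 : out (Ideal.Quotient.mk T x) - x ∈ T := by
      rw [← Ideal.Quotient.eq]; exact hout _
    simp only [hg]
    rw [ind_congr (hcop _ _ h1)]
  have hgn : ∀ q, ‖g q‖ ≤ 1 := by
    intro q
    simp only [hg]
    rw [Complex.norm_real, Real.norm_eq_abs, abs_le]
    have h1 := ind_nonneg (cop (out q) M)
    have h2 := ind_le_one (cop (out q) M)
    constructor <;> linarith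
  obtain ⟨CA, hCA1, hA⟩ := hAb
  obtain ⟨CL, hCL1, hL1, -⟩ := id hLat
  set s : ℝ := nm T with hs
  have hs0 : 0 < s := by linarith
  have hsd : nm T ≤ s ^ d := by
    rw [← hs]
    exact le_self_pow₀ hTn hd0.ne'
  refine ⟨γ, hγ0, hγ1, fun L B hL hB => ?_⟩
  have hCR0 : 0 ≤ CR := by linarith [hI.one]
  have hCA0 : 0 ≤ CA := by linarith
  have hCL0 : 0 ≤ CL := by linarith
  refine ⟨CA * L * s * (CL * (B + CA * s + 1) ^ d) + γ * (CR * L * (B + 1) ^ d), by positivity, ?_⟩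
  intro D hD ρ X hX F hF hFρ
  have hD0 : 0 < D := by linarith
  set G : Sp K → ℝ := fun z => F (D⁻¹ • z) with hG
  have hGL : LipF (L / D) (B * D) G := LipF.smul hF hD0
  obtain ⟨S, hS⟩ := exists_ball hLat (B * D) (by positivity)
  obtain ⟨S', hS'⟩ := exists_ball hLat (B * D + CA * s) (by positivity)
  have hSG : ∀ x : 𝓞 K, G (E (x : K)) ≠ 0 → x ∈ S := fun x hx => (hS x).2 (hGL.2 _ hx)
  -- the sum over the slot
  have hsumX : ∑ x ∈ X, F (D⁻¹ • E (x : K)) = ∑ x ∈ S, G (E (x : K)) * ind (cop x M) := by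
    have h1 : ∑ x ∈ X, F (D⁻¹ • E (x : K)) = ∑ x ∈ X ∪ S, G (E (x : K)) * ind (cop x M) := by
      have h2 : ∑ x ∈ X, F (D⁻¹ • E (x : K)) = ∑ x ∈ X, G (E (x : K)) * ind (cop x M) := by
        refine Finset.sum_congr rfl fun x hx => ?_
        rw [ind_true ((hX x).1 hx).1, mul_one]
      rw [h2]
      refine Finset.sum_subset Finset.subset_union_left fun x _ hx => ?_
      by_cases hc : cop x M
      · have : F (D⁻¹ • E (x : K)) = 0 := by
          by_contra h0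
          exact hx ((hX x).2 ⟨hc, hFρ _ h0⟩)
        simp only [hG]
        rw [this, zero_mul]
      · rw [ind_false hc, mul_zero]
    rw [h1]
    symm
    refine Finset.sum_subset Finset.subset_union_right fun x _ hx => ?_
    have : G (E (x : K)) = 0 := by
      by_contra h0
      exact hx (hSG x h0)
    rw [this, zero_mul]
  -- Abel
  have hab := hA T s hT0 hs0 hsd g hg0 G (L / D) (B * D) (by positivity) (by positivity) hGL S S'
    hSG (fun x hx => (hS' x).2 hx)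
  have hcardS' : (S'.card : ℝ) ≤ CL * ((B + CA * s + 1) ^ d * D ^ d) := by
    refine (hL1 (B * D + CA * s) S' (by positivity) fun x hx => (hS' x).1 hx).trans ?_
    refine mul_le_mul_of_nonneg_left ?_ hCL0
    rw [← mul_pow]
    refine pow_le_pow_left₀ (by positivity) ?_ _
    have : 0 ≤ (CA * s + 1) * (D - 1) := by
      apply mul_nonneg
      · positivity
      · linarith
    nlinarith
  have hab2 : |∑ x ∈ S, G (E (x : K)) * ind (cop x M) - γ * ∑ x ∈ S, G (E (x : K))| ≤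
      CA * (L / D) * s * (CL * ((B + CA * s + 1) ^ d * D ^ d)) := by
    have h1 : (∑ x ∈ S, g (Ideal.Quotient.mk T x) * (G (E (x : K)) : ℂ)) =
        ((∑ x ∈ S, G (E (x : K)) * ind (cop x M) - γ * ∑ x ∈ S, G (E (x : K)) : ℝ) : ℂ) := by
      rw [Finset.mul_sum, ← Finset.sum_sub_distrib, Complex.ofReal_sum]
      refine Finset.sum_congr rfl fun x _ => ?_
      rw [hgx]
      push_cast
      ring
    rw [h1, Complex.norm_real, Real.norm_eq_abs] at hab
    refine hab.trans ?_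
    refine mul_le_mul_of_nonneg_left ?_ (by positivity)
    calc ∑ x ∈ S', ‖g (Ideal.Quotient.mk T x)‖ ≤ ∑ _x ∈ S', (1 : ℝ) :=
          Finset.sum_le_sum fun x _ => hgn _
      _ = S'.card := by simp
      _ ≤ _ := hcardS'
  -- Riemann sums
  have hr := hI.sum G (L / D) (B * D) (by positivity) (by positivity) hGL S hSG
  have hIG : I G = D ^ d * I F := by
    have h1 := hI.scale F L B hF (fun _ => ((D⁻¹ : ℝ) : ℂ)) (RF_const (inv_ne_zero hD0.ne'))
    rw [nrm_const _ (inv_pos.2 hD0).le] at h1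
    have h2 : G = fun z => F ((fun _ => ((D⁻¹ : ℝ) : ℂ) : Sp K) * z) := by
      funext z
      simp only [hG]
      rw [smul_eq]
    rw [h2, h1, inv_pow, div_inv_eq_mul, mul_comm]
  have hr2 : |γ * ∑ x ∈ S, G (E (x : K)) - γ * (D ^ d * I F)| ≤
      γ * (CR * (L / D) * ((B + 1) ^ d * D ^ d)) := by
    rw [← mul_sub, abs_mul, abs_of_pos hγ0, ← hIG]
    refine mul_le_mul_of_nonneg_left (hr.trans ?_) hγ0.le
    refine mul_le_mul_of_nonneg_left ?_ (by positivity)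
    rw [← mul_pow]
    exact pow_le_pow_left₀ (by positivity) (by nlinarith) _
  have hmain : |∑ x ∈ S, G (E (x : K)) * ind (cop x M) - γ * (D ^ d * I F)| ≤
      (CA * L * s * (CL * (B + CA * s + 1) ^ d) + γ * (CR * L * (B + 1) ^ d)) / D * D ^ d := by
    have h1 : ∑ x ∈ S, G (E (x : K)) * ind (cop x M) - γ * (D ^ d * I F) =
        (∑ x ∈ S, G (E (x : K)) * ind (cop x M) - γ * ∑ x ∈ S, G (E (x : K))) +
        (γ * ∑ x ∈ S, G (E (x : K)) - γ * (D ^ d * I F)) := by ring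
    rw [h1]
    refine (abs_add_le _ _).trans ((add_le_add hab2 hr2).trans (le_of_eq ?_))
    field_simp
  have hDd : 0 < D ^ d := by positivity
  rw [hsumX]
  have h2 : (D⁻¹) ^ d * ∑ x ∈ S, G (E (x : K)) * ind (cop x M) - γ * I F =
      (D⁻¹) ^ d * (∑ x ∈ S, G (E (x : K)) * ind (cop x M) - γ * (D ^ d * I F)) := by
    rw [inv_pow, mul_sub]
    field_simp
  rw [h2, abs_mul, abs_of_pos (by positivity)]
  calc (D⁻¹) ^ d * |∑ x ∈ S, G (E (x : K)) * ind (cop x M) - γ * (D ^ d * I F)|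
      ≤ (D⁻¹) ^ d * ((CA * L * s * (CL * (B + CA * s + 1) ^ d) +
        γ * (CR * L * (B + 1) ^ d)) / D * D ^ d) :=
        mul_le_mul_of_nonneg_left hmain (by positivity)
    _ = _ := by
        rw [inv_pow]
        field_simp

end Pool.Agent.T9h22.NF
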